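import Mathlib
import Pool.Agent.H4.Rec3

set_option autoImplicit false

namespace Pool.Agent.Results.MP_3dc43d_an.Separable

open Topology

open Pool.Agent.H4.Rec in
theorem result :
    ∀ (𝕂 : Type) [RCLike 𝕂] (X : Type) [NormedAddCommGroup X] [NormedSpace 𝕂 X]
      [CompleteSpace X] [TopologicalSpace.SeparableSpace X] (T : X →L[𝕂] X),
      Dense {x : X | ∀ U ∈ 𝓝 x, ∃ N : ℕ, ∀ m : ℕ, ∃ n : ℕ,
          m ≤ n ∧ n ≤ m + N ∧ 1 ≤ n ∧ (T ^ n) x ∈ U} →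
      ∃ M : Submodule 𝕂 X, Dense (M : Set X) ∧
        ∀ x ∈ M, ∀ U ∈ 𝓝 x, ∃ N : ℕ, ∀ m : ℕ, ∃ n : ℕ,
          m ≤ n ∧ n ≤ m + N ∧ 1 ≤ n ∧ (T ^ n) x ∈ U := by
  intro K _ X _ _ _ _ T h
  obtain ⟨M, h1, h2⟩ := main_Syn.lin K X T (h.mono fun x hx U hU => by
    obtain ⟨N, hN⟩ := hx U hU
    refine ⟨N, fun m => ?_⟩
    obtain ⟨n, a, b, _, d⟩ := hN m
    exact ⟨n, by rwa [ContinuousLinearMap.coe_pow'] at d, a, b⟩)
  refine ⟨M, h1, fun x hx U hU => ?_⟩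
  obtain ⟨N, hN⟩ := h2 x hx U hU
  refine ⟨N + 1, fun m => ?_⟩
  obtain ⟨n, a, b, d⟩ := hN (m + 1)
  exact ⟨n, by omega, by omega, by omega, by rw [ContinuousLinearMap.coe_pow']; exact a⟩

end Pool.Agent.Results.MP_3dc43d_an.Separable
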